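import Pool.Agent.Y499.HC.Stm2
import Pool.Agent.Y249.HC.Avg

/-!
# HC-AVGE: averages over the frames of functions of a vector and a unit tangent vector
-/

set_option autoImplicit false

open Real Set MeasureTheory Metric
open scoped ENNReal

namespace Pool.Agent.Y454.HC

open Pool.Agent.Y499.HC Pool.Agent.Y499.HR Pool.Agent.Y249.HC

theorem t_AVGE : T_AVGE := by
  intro d hd μ hμ Ψ hΨ c s hcs X hX
  have := hμ.prob
  have h01 : (1 : Fin (d + 1)) ≠ 0 := by
    intro h
    have := congrArg Fin.val h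
    simp at this
    omega
  obtain ⟨F, hF⟩ : ∃ F : Fr d → ℝ, F = fun b => Ψ (vecF b 0, b.1 1) := ⟨_, rfl⟩
  have cF : Continuous F := by
    rw [hF]
    exact hΨ.comp ((cont_vecF 0).prodMk (cont_vec 1))
  -- step 1: rotation
  have st1 : ∫ b, Ψ (X b, (-s) • b.1 0 + c • b.1 1) ∂μ = ∫ b, F b ∂μ := by
    rw [← hμ.inv ⟨_, R2_mem hd c s hcs⟩ F cF]
    apply integral_congr_ae
    apply Filter.Eventually.of_forall
    intro b
    have e1 : vecF (rotF ⟨_, R2_mem hd c s hcs⟩ b) 0 = X b := by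
      apply Subtype.ext
      rw [hX b]
      exact R2_rot0 hd c s hcs b
    simp only [hF, e1, R2_rot1 hd c s hcs b]
  rw [st1]
  -- step 2: signed permutations
  have st2 : ∀ (j : Fin (d + 1)) (e : ℝ), j ≠ 0 → e * e = 1 →
      ∫ b, Ψ (vecF b 0, e • b.1 j) ∂μ = ∫ b, F b ∂μ := by
    intro j e hj he
    have hε : ∀ k : Fin (d + 1), (fun k : Fin (d + 1) => if k = 1 then e else (1 : ℝ)) k *
        (fun k : Fin (d + 1) => if k = 1 then e else (1 : ℝ)) k = 1 := by
      intro k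
      simp only
      split_ifs
      · exact he
      · norm_num
    rw [← hμ.inv ⟨_, perm_mem (Equiv.swap 1 j) _ hε⟩ F cF]
    apply integral_congr_ae
    apply Filter.Eventually.of_forall
    intro b
    have e0 : vecF (rotF ⟨_, perm_mem (Equiv.swap 1 j) _ hε⟩ b) 0 = vecF b 0 := by
      apply Subtype.ext
      have := perm_rot (Equiv.swap 1 j) _ hε b 0
      simp only [vecF]
      rw [this, Equiv.swap_apply_of_ne_of_ne (Ne.symm h01) (Ne.symm hj), if_neg (Ne.symm h01),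
        one_smul]
    have e1 : (rotF ⟨_, perm_mem (Equiv.swap 1 j) _ hε⟩ b).1 1 = e • b.1 j := by
      rw [perm_rot (Equiv.swap 1 j) _ hε, Equiv.swap_apply_left, if_pos rfl]
    simp only [hF, e0, e1]
  have st3 : ∀ i : Fin d, ∫ b, Ψ (vecF b 0, b.1 i.succ) ∂μ = ∫ b, F b ∂μ := by
    intro i
    have := st2 i.succ 1 (Fin.succ_ne_zero i) (by norm_num)
    simpa using this
  have st4 : ∀ i : Fin d, ∫ b, Ψ (vecF b 0, -b.1 i.succ) ∂μ = ∫ b, F b ∂μ := by
    intro i
    have := st2 i.succ (-1) (Fin.succ_ne_zero i) (by norm_num)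
    simpa using this
  have c3 : ∀ i : Fin d, Continuous (fun b : Fr d => Ψ (vecF b 0, b.1 i.succ)) := fun i =>
    hΨ.comp ((cont_vecF 0).prodMk (cont_vec i.succ))
  have c4 : ∀ i : Fin d, Continuous (fun b : Fr d => Ψ (vecF b 0, -b.1 i.succ)) := fun i =>
    hΨ.comp ((cont_vecF 0).prodMk (cont_vec i.succ).neg)
  have hd0 : (d : ℝ) ≠ 0 := by
    have : 0 < d := hd
    exact_mod_cast this.ne'
  have c5 : ∀ i : Fin d, Integrable
      (fun b : Fr d => Ψ (vecF b 0, b.1 i.succ) + Ψ (vecF b 0, -b.1 i.succ)) μ := fun i =>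
    integ μ _ ((c3 i).add (c4 i))
  rw [integral_const_mul, integral_finsetSum _ (fun i _ => c5 i)]
  have st5 : ∀ i : Fin d, ∫ b, (Ψ (vecF b 0, b.1 i.succ) + Ψ (vecF b 0, -b.1 i.succ)) ∂μ =
      2 * ∫ b, F b ∂μ := by
    intro i
    rw [integral_add (integ μ _ (c3 i)) (integ μ _ (c4 i)), st3 i, st4 i]
    ring
  rw [Finset.sum_congr rfl (fun i _ => st5 i), Finset.sum_const, Finset.card_univ,
    Fintype.card_fin, nsmul_eq_mul]
  field_simp

end Pool.Agent.Y454.HC
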